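import Mathlib

/-!
MP_ee74d2_an, `d = 3`, four-broad part below `10/3`: the linear program of the two-ended case
(exponents to the base `R`, errors `κ`).
-/

set_option autoImplicit false

namespace Pool.Agent.H84.LSB

/-- the linear program, case of a scale `R^{1/8}` with `D ≥ u` -/
theorem lpA (n h q t b a e κ : ℝ) (v u D₀ D₁ D₂ : Fin 4 → ℝ) (X₀ X₁ : ℝ) (hκ : 0 ≤ κ)
    (ha : a ≤ κ)
    (hE : t + b + 2 * a + 1 ≤ e + κ) (he : e ≤ 3 + κ) (huv : ∀ i, u i ≤ v i + κ)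
    (hHB : ∀ i j, i ≠ j → q + v i + 2 * v j ≤ 2 * t + κ)
    (hRD : ∀ i, n + 4 * h ≤ u i + 4 * a + t + b + 2 + κ)
    (hMq : 3 / 4 * (n - q) + 2 * h ≤ (v 0 + v 1 + v 2 + v 3) / 4 + b + 2 * a + 1 + κ)
    (hMR : 3 / 4 * n + 2 * h ≤ t + b + 2 * a + 1 + κ)
    (hD₀ : ∀ i, u i ≤ D₀ i + κ) (hD₂ : ∀ i, D₂ i ≤ v i + b - 1 / 2 + κ)
    (hW₀ : X₀ ≤ q + (v 0 + v 1 + v 2 + v 3) + 4 * b - (D₀ 0 + D₀ 1 + D₀ 2 + D₀ 3) + κ)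
    (hW₁ : X₁ ≤ q + (v 0 + v 1 + v 2 + v 3) + 4 * b - (D₁ 0 + D₁ 1 + D₁ 2 + D₁ 3) + κ)
    (h3₀ : 3 / 2 * n + 4 * h ≤ (D₁ 0 + D₁ 1 + D₁ 2 + D₁ 3) / 4 + X₀ / 2 + 4 * a + t + b + 2 + κ)
    (h3₁ : 3 / 2 * n + 4 * h ≤ (D₂ 0 + D₂ 1 + D₂ 2 + D₂ 3) / 4 + X₁ / 2 + 4 * a + t + b + 2 + κ) :
    n + 83 / 25 * h ≤ e + 33 / 25 + 20 * κ := by
  have b01 := hHB 0 1 (by decide)
  have b12 := hHB 1 2 (by decide)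
  have b23 := hHB 2 3 (by decide)
  have b30 := hHB 3 0 (by decide)
  have r0 := hRD 0; have r1 := hRD 1; have r2 := hRD 2; have r3 := hRD 3
  have w0 := huv 0; have w1 := huv 1; have w2 := huv 2; have w3 := huv 3
  have d0 := hD₀ 0; have d1 := hD₀ 1; have d2 := hD₀ 2; have d3 := hD₀ 3
  have f0 := hD₂ 0; have f1 := hD₂ 1; have f2 := hD₂ 2; have f3 := hD₂ 3
  -- averages
  obtain ⟨V, hV⟩ : ∃ V, V = v 0 + v 1 + v 2 + v 3 := ⟨_, rfl⟩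
  obtain ⟨U, hU⟩ : ∃ U, U = u 0 + u 1 + u 2 + u 3 := ⟨_, rfl⟩
  obtain ⟨E₀, hE₀⟩ : ∃ E, E = D₀ 0 + D₀ 1 + D₀ 2 + D₀ 3 := ⟨_, rfl⟩
  obtain ⟨E₁, hE₁⟩ : ∃ E, E = D₁ 0 + D₁ 1 + D₁ 2 + D₁ 3 := ⟨_, rfl⟩
  obtain ⟨E₂, hE₂⟩ : ∃ E, E = D₂ 0 + D₂ 1 + D₂ 2 + D₂ 3 := ⟨_, rfl⟩
  have B : 4 * q + 3 * V ≤ 8 * t + 4 * κ := by rw [hV]; linarith
  have R : 4 * (n + 4 * h) ≤ U + 4 * (4 * a + t + b + 2) + 4 * κ := by rw [hU]; linarith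
  have W : U ≤ V + 4 * κ := by rw [hU, hV]; linarith
  have D : U ≤ E₀ + 4 * κ := by rw [hU, hE₀]; linarith
  have F : E₂ ≤ V + 4 * (b - 1 / 2) + 4 * κ := by rw [hE₂, hV]; linarith
  rw [← hV] at hMq hW₀ hW₁
  rw [← hE₀] at hW₀
  rw [← hE₁] at hW₁ h3₀
  rw [← hE₂] at h3₁
  clear hV hU hE₀ hE₁ hE₂ b01 b12 b23 b30 r0 r1 r2 r3 w0 w1 w2 w3 d0 d1 d2 d3 f0 f1 f2 f3
  linarith

/-- the linear program, case of a small scale `R^α` which is nearly dominating for one class -/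
theorem lpB (n h q t b a e κ α : ℝ) (v u D₀ D₁ D₂ : Fin 4 → ℝ) (X₀ X₁ : ℝ) (i₀ : Fin 4)
    (hκ : 0 ≤ κ) (ha : a ≤ κ) (hb : 0 ≤ b + κ) (hα : 0 ≤ α)
    (hE : t + b + 2 * a + 1 ≤ e + κ) (he : e ≤ 3 + κ) (huv : ∀ i, u i ≤ v i + κ)
    (hHB : ∀ i j, i ≠ j → q + v i + 2 * v j ≤ 2 * t + κ)
    (hRD : ∀ i, n + 4 * h ≤ u i + 4 * a + t + b + 2 + κ)
    (hMq : 3 / 4 * (n - q) + 2 * h ≤ (v 0 + v 1 + v 2 + v 3) / 4 + b + 2 * a + 1 + κ)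
    (hN : n + 4 * u i₀ ≤ 4 * α + v i₀ + t + b + 2 + κ)
    (hD₀ : ∀ i, u i ≤ D₀ i + κ) (hL : ∀ i, D₀ i ≤ D₁ i + α + κ)
    (hD₂ : ∀ i, D₂ i ≤ v i + b - 4 * α + κ)
    (hW₀ : X₀ ≤ q + (v 0 + v 1 + v 2 + v 3) + 4 * b - (D₀ 0 + D₀ 1 + D₀ 2 + D₀ 3) + κ)
    (hW₁ : X₁ ≤ q + (v 0 + v 1 + v 2 + v 3) + 4 * b - (D₁ 0 + D₁ 1 + D₁ 2 + D₁ 3) + κ)
    (h3₀ : 3 / 2 * n + 4 * h ≤ (D₁ 0 + D₁ 1 + D₁ 2 + D₁ 3) / 4 + X₀ / 2 + 4 * a + t + b + 2 + κ)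
    (h3₁ : 3 / 2 * n + 4 * h ≤ (D₂ 0 + D₂ 1 + D₂ 2 + D₂ 3) / 4 + X₁ / 2 + 4 * a + t + b + 2 + κ) :
    n + 83 / 25 * h ≤ e + 33 / 25 + 20 * κ := by
  -- reduce to `i₀ = 0` by symmetric sums
  obtain ⟨V, hV⟩ : ∃ V, V = v 0 + v 1 + v 2 + v 3 := ⟨_, rfl⟩
  obtain ⟨U, hU⟩ : ∃ U, U = u 0 + u 1 + u 2 + u 3 := ⟨_, rfl⟩
  obtain ⟨E₀, hE₀⟩ : ∃ E, E = D₀ 0 + D₀ 1 + D₀ 2 + D₀ 3 := ⟨_, rfl⟩
  obtain ⟨E₁, hE₁⟩ : ∃ E, E = D₁ 0 + D₁ 1 + D₁ 2 + D₁ 3 := ⟨_, rfl⟩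
  obtain ⟨E₂, hE₂⟩ : ∃ E, E = D₂ 0 + D₂ 1 + D₂ 2 + D₂ 3 := ⟨_, rfl⟩
  have R : 3 * (n + 4 * h) ≤ (U - u i₀) + 3 * (4 * a + t + b + 2) + 3 * κ := by
    have r0 := hRD 0; have r1 := hRD 1; have r2 := hRD 2; have r3 := hRD 3
    fin_cases i₀ <;> simp at * <;> linarith
  have R0 := hRD i₀
  have W0 := huv i₀
  have W : U - u i₀ ≤ V - v i₀ + 3 * κ := by
    have w0 := huv 0; have w1 := huv 1; have w2 := huv 2; have w3 := huv 3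
    fin_cases i₀ <;> simp at * <;> linarith
  have B : 3 * q + 3 * v i₀ + 2 * (V - v i₀) ≤ 6 * t + 3 * κ := by
    fin_cases i₀
    · have b1 := hHB 0 1 (by decide); have b2 := hHB 0 2 (by decide); have b3 := hHB 0 3 (by decide)
      simp at *; linarith
    · have b1 := hHB 1 0 (by decide); have b2 := hHB 1 2 (by decide); have b3 := hHB 1 3 (by decide)
      simp at *; linarith
    · have b1 := hHB 2 0 (by decide); have b2 := hHB 2 1 (by decide); have b3 := hHB 2 3 (by decide)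
      simp at *; linarith
    · have b1 := hHB 3 0 (by decide); have b2 := hHB 3 1 (by decide); have b3 := hHB 3 2 (by decide)
      simp at *; linarith
  have D : U ≤ E₀ + 4 * κ := by
    have d0 := hD₀ 0; have d1 := hD₀ 1; have d2 := hD₀ 2; have d3 := hD₀ 3
    rw [hU, hE₀]; linarith
  have L : E₀ ≤ E₁ + 4 * α + 4 * κ := by
    have d0 := hL 0; have d1 := hL 1; have d2 := hL 2; have d3 := hL 3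
    rw [hE₀, hE₁]; linarith
  have F : E₂ ≤ V + 4 * (b - 4 * α) + 4 * κ := by
    have d0 := hD₂ 0; have d1 := hD₂ 1; have d2 := hD₂ 2; have d3 := hD₂ 3
    rw [hE₂, hV]; linarith
  rw [← hV] at hMq hW₀ hW₁
  rw [← hE₀] at hW₀
  rw [← hE₁] at hW₁ h3₀
  rw [← hE₂] at h3₁
  generalize v i₀ = v₀ at *
  generalize u i₀ = u₀ at *
  clear hV hU hE₀ hE₁ hE₂ hHB hRD huv hD₀ hL hD₂
  linarith

end Pool.Agent.H84.LSB
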