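import Pool.Agent.H82.FP.Targets
import Pool.Agent.H88.B2.Defs

/-!
MP_ee74d2_an, dimension 3 (`m = 2`): the high-low method for the planks of wave packets (group HL)
and the density argument at thickness `w` (group DE), for the two-ended case below `p = 10/3`.

`ww N R δ w W z` is the weight of the plank `W` at `z`, with thickness `w`, and `Nd N R δ w S z`
is the weighted number of the planks of `S` at distance `w` of `z` (H88/B2/Defs). With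
`x = fc R δ W.1 z - zc W.2` the first factor of `ww` is a function of `(R ^ δ / w) * x.1`, which
is `((Lo η 1 z).1 - R ^ δ * l) / w`.
-/

set_option autoImplicit false

namespace Pool.Agent.H84.LSB

open MeasureTheory Set
open Pool.Agent.H83.G
open Pool.Agent.H88.B2
open Pool.Agent.H22.G4 (nv Ind)
open Pool.Agent.H82.FP (Tu)
open scoped ENNReal NNReal RealInnerProductSpace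

section

variable {m : ℕ}

/-- sum of wave packets -/
noncomputable def FS (β : E m → ℂ) (ψ : Z m → ℝ) (R δ : ℝ) (G : Z m → ℂ) (S : Finset (Pk m))
    (z : Z m) : ℂ := ∑ W ∈ S, Fp β ψ R δ G W z

/-- index of the cap of radius `1/w` which contains the cap `k` of radius `R^(-1/2)` -/
noncomputable def ka (w R : ℝ) (k : Fin m → ℤ) : Fin m → ℤ := fun i => ⌊(k i : ℝ) * (sR R * w)⌋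

/-- the planks of `S` in the cap `j` of radius `1/w` -/
noncomputable def Sk (w R : ℝ) (S : Finset (Pk m)) (j : Fin m → ℤ) : Finset (Pk m) := by
  classical
  exact S.filter (fun W => ka w R W.1 = j)

/-- the caps of radius `1/w` of the planks of `S` -/
noncomputable def Kk (w R : ℝ) (S : Finset (Pk m)) : Finset (Fin m → ℤ) := by
  classical
  exact S.image (fun W => ka w R W.1)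

/-- fourth powers of the pieces of the caps of radius `1/w`, divided by their multiplicities -/
noncomputable def A4 (N : ℕ) (β : E m → ℂ) (ψ : Z m → ℝ) (w R δ : ℝ) (G : Z m → ℂ)
    (S : Finset (Pk m)) (Ω : Z m → ℝ≥0∞) : ℝ≥0∞ :=
  ∑ j ∈ Kk w R S, ∫⁻ z, ‖FS β ψ R δ G (Sk w R S j) z‖ₑ ^ 4 *
    (ENNReal.ofReal (Nd N R δ (R ^ δ) (Sk w R S j) z))⁻¹ * Ω z

/-- local energy of the pieces of the caps of radius `1/w` in the ball of centre `x` -/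
noncomputable def L2 (N : ℕ) (β : E m → ℂ) (ψ : Z m → ℝ) (w R δ : ℝ) (G : Z m → ℂ)
    (S : Finset (Pk m)) (x : Z m) : ℝ≥0∞ :=
  ∑ j ∈ Kk w R S, ∫⁻ z, ‖FS β ψ R δ G (Sk w R S j) z‖ₑ ^ 2 *
    ENNReal.ofReal (wt N (w⁻¹ • (z - x)))

/-- multiplier in the first frequency -/
noncomputable def mu1 (φ : ℝ → ℝ) (w : ℝ) (G : Z m → ℂ) (ζ : Z m) : ℂ := (φ (w * ζ.1) : ℂ) * G ζ

/-- the hypotheses on the function and on the planks -/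
def HG (β : E 2 → ℂ) (Na : ℕ) (κ R δ a : ℝ) (G : Z 2 → ℂ) (S : Finset (Pk 2)) : Prop :=
  0 ≤ κ ∧ κ ≤ 3 / 8 ∧ 1 ≤ R ∧ TC G ∧ (∀ ζ, G ζ ≠ 0 → ζ ∈ Rg 2 κ R⁻¹) ∧ 0 < a ∧
  ∀ W ∈ S, W.1 ∈ Ks 2 (sR R) ∧ ‖ctr (sR R) W.1‖ ≤ 3 ∧ al Na β R δ G W ≤ a

end

/-! ### group OW: weights -/

/-- OWA: elementary properties of the weights -/
def T_OWA : Prop := ∀ (m N : ℕ) (R δ : ℝ) (W : Pk m), 1 ≤ R → 0 ≤ δ →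
  (∀ w : ℝ, 0 < w → Continuous (ww N R δ w W)) ∧
  (∀ (w : ℝ) (z : Z m), 0 < ww N R δ w W z ∧ ww N R δ w W z ≤ 1) ∧
  (∀ (w w' : ℝ) (z : Z m), 0 < w → w ≤ w' → ww N R δ w W z ≤ ww N R δ w' W z) ∧
  (∀ (N' : ℕ) (w : ℝ) (z : Z m), N ≤ N' → ww N' R δ w W z ≤ ww N R δ w W z) ∧
  (∀ z : Z m, wt (2 * N) (fc R δ W.1 z - zc W.2) ≤ ww N R δ (R ^ δ) W z ∧
    ww N R δ (R ^ δ) W z ≤ wt N (fc R δ W.1 z - zc W.2)) ∧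
  ∀ (w : ℝ) (z : Z m), 0 < w →
    (w < |(fc R δ W.1 z - zc W.2).1| ∨ R ^ δ < ‖(fc R δ W.1 z - zc W.2).2‖) →
    ww N R δ w W z ≤ R ^ (-(δ * N))

/-- OWS: the weights vary slowly: in balls of radius `w`, in planks `1 × w × w × w²` (thickness
`R^δ`), in tubes `w × w × w × w²` (thickness `w²`), and at the scale `R/w²` (thickness `w R^δ`) -/
def T_OWS : Prop := ∀ (m N : ℕ) (D : ℝ), 0 ≤ D → ∃ C : ℝ, 1 ≤ C ∧ ∀ (R δ w : ℝ) (W : Pk m)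
  (z z' : Z m), 1 ≤ R → 0 ≤ δ → 1 ≤ w → w ≤ Real.sqrt R → ‖ctr (sR R) W.1‖ ≤ D →
  (∀ w' : ℝ, w ≤ w' →
    ww N R δ w' W z ≤ C * (1 + ‖w⁻¹ • (z - z')‖) ^ (2 * N) * ww N R δ w' W z') ∧
  (∀ η : E m, ‖ctr (sR R) W.1 - η‖ ≤ D / w →
    ww N R δ (R ^ δ) W z ≤
      C * (1 + ‖Lo η w⁻¹ (z - z')‖) ^ (2 * N) * ww N R δ (R ^ δ) W z') ∧
  (∀ η : E m, ‖η‖ ≤ D → w ^ 2 ≤ Real.sqrt R →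
    ww N R δ (w ^ 2) W z ≤ C * (1 + ‖Tu η w (z - z')‖) ^ (2 * N) * ww N R δ (w ^ 2) W z') ∧
  ∀ η : E m, ‖ctr (sR R) W.1 - η‖ ≤ D * (w * sR R) →
    ww N R δ (w * R ^ δ) W z ≤
      C * (1 + ‖R ^ (-δ) • Lo η (w * sR R) (w⁻¹ • (z - z'))‖) ^ (2 * N) *
        ww N R δ (w * R ^ δ) W z'

/-- CNV: a one-dimensional convolution -/
def T_CNV : Prop := ∀ N : ℕ, 2 ≤ N → ∃ C : ℝ, 1 ≤ C ∧ ∀ b x : ℝ, 1 ≤ b →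
  ∫⁻ u : ℝ, ENNReal.ofReal (((1 + |x - b * u|) ^ N)⁻¹ * ((1 + |u|) ^ (N + 2))⁻¹) ≤
    ENNReal.ofReal (C * b⁻¹ * ((1 + |x / b|) ^ N)⁻¹)

/-- OWI: integral of the weights -/
def T_OWI : Prop := ∀ (m N : ℕ), m + 3 ≤ N → ∃ C : ℝ, 1 ≤ C ∧ ∀ (R δ w : ℝ) (W : Pk m),
  1 ≤ R → 0 ≤ δ → 0 < w →
  ∫⁻ z, ENNReal.ofReal (ww N R δ w W z) ≤
    ENNReal.ofReal (C * R ^ (δ * ((m : ℝ) + 1)) * w * R ^ (((m : ℝ) + 2) / 2))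

/-- OWB: integral of the weights in balls of radius `w` -/
def T_OWB : Prop := ∀ (m N N' : ℕ) (D : ℝ), 0 ≤ D → 2 ≤ N → 3 * N + m + 7 ≤ N' →
  ∃ C : ℝ, 1 ≤ C ∧ ∀ (R δ w : ℝ) (W : Pk m) (x : Z m), 1 ≤ R → 0 ≤ δ → R ^ δ ≤ w →
  w ≤ Real.sqrt R → ‖ctr (sR R) W.1‖ ≤ D →
  ∫⁻ z, ENNReal.ofReal (ww N R δ (R ^ δ) W z * wt N' (w⁻¹ • (z - x))) ≤
    ENNReal.ofReal (C * R ^ δ * w ^ (m + 1) * ww N R δ w W x)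

/-- SEI: sums over separated sets are bounded by integrals -/
def T_SEI : Prop := ∀ (m N : ℕ), ∃ C : ℝ, 1 ≤ C ∧ ∀ (w C₁ : ℝ) (Y : Finset (Z m))
  (f : Z m → ℝ≥0∞), 0 < w → 0 ≤ C₁ → Sepw w Y → Measurable f →
  (∀ z z' : Z m, f z ≤ ENNReal.ofReal (C₁ * (1 + ‖w⁻¹ • (z - z')‖) ^ N) * f z') →
  ∑ z ∈ Y, f z ≤ ENNReal.ofReal (C * C₁ * (w⁻¹) ^ (m + 2)) * ∫⁻ z, f z

/-! ### group HL: the high-low method for the planks -/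

/-- HPU: partition of unity in the first frequency -/
def T_HPU : Prop := ∃ φ₀ φ₁ : ℝ → ℝ, ContDiff ℝ (⊤ : ℕ∞) φ₀ ∧ ContDiff ℝ (⊤ : ℕ∞) φ₁ ∧
  (∀ x, φ₀ x ≠ 0 → |x| ≤ 2) ∧ (∀ x, φ₁ x ≠ 0 → 1 / 2 ≤ x ∧ x ≤ 2) ∧
  ∀ (J : ℕ) (x : ℝ), |x| ≤ 1 →
    φ₀ (2 ^ J * x) + ∑ j ∈ Finset.range J, (φ₁ (2 ^ j * x) + φ₁ (-(2 ^ j * x))) = 1

/-- HKN: kernels of the multipliers in the first frequency -/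
def T_HKN : Prop := ∀ (m N : ℕ) (φ : ℝ → ℝ), ContDiff ℝ (⊤ : ℕ∞) φ → (∀ x, φ x ≠ 0 → |x| ≤ 2) →
  ∃ C : ℝ, 1 ≤ C ∧ ∀ (w : ℝ) (G : Z m → ℂ), 0 < w → TC G → TC (mu1 φ w G) ∧
  (∀ z : Z m, ‖TF (mu1 φ w G) z‖ₑ ≤ ENNReal.ofReal C * ∫⁻ u : ℝ,
    ENNReal.ofReal (((1 + |u|) ^ N)⁻¹) * ‖TF G (z - (w * u, 0, 0))‖ₑ) ∧
  ((∀ z : Z m, (TF G z).im = 0) →
    ∀ z : Z m, ‖TF (mu1 (fun x => φ (-x)) w G) z‖ = ‖TF (mu1 φ w G) z‖)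

/-- HCH: bumps adapted to the planks -/
def T_HCH : Prop := ∀ (m N : ℕ), ∃ C : ℝ, 1 ≤ C ∧ ∀ (R δ : ℝ) (W : Pk m), 1 ≤ R → 0 ≤ δ →
  ∃ G : Z m → ℂ, TC G ∧ (∀ z, (TF G z).im = 0 ∧ 0 ≤ (TF G z).re) ∧
  (∀ z, ‖TF G z‖ ≤ C * ww N R δ (R ^ δ) W z) ∧
  (∀ z, ‖fc R δ W.1 z - zc W.2‖ ≤ R ^ δ → ww N R δ (R ^ δ) W z ≤ C * (TF G z).re) ∧
  ∀ ζ, G ζ ≠ 0 → ∃ ζ' : Z m, ‖ζ'‖ ≤ 1 / 1000 ∧ ζ = R ^ (-δ) • Ld (ctr (sR R) W.1) (sR R) ζ'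

/-- HSP: supports of the bumps of frequency about `1/w`, dilated by `w` -/
def T_HSP : Prop := ∃ D : ℝ, 1 ≤ D ∧ ∀ (m : ℕ) (c s w : ℝ) (η : E m) (ζ' ζ : Z m), 0 < c →
  c ≤ 1 → 0 < s → s ≤ 1 → 1 ≤ w → ‖ζ'‖ ≤ 1 / 1000 → ζ = w • c • Ld η s ζ' → 1 / 2 ≤ ζ.1 →
  ‖ζ.1⁻¹ • ζ.2.1 - η‖ ≤ D * (w * s) ∧ |ζ.2.2 - ‖ζ.2.1‖ ^ 2 / ζ.1| ≤ D * (w * s) ^ 2

/-- HPT: pointwise bound of the parts of frequency about `1/w` -/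
def T_HPT : Prop := ∀ (m N : ℕ) (φ : ℝ → ℝ), 2 ≤ N → ContDiff ℝ (⊤ : ℕ∞) φ →
  (∀ x, φ x ≠ 0 → |x| ≤ 2) → ∃ C : ℝ, 1 ≤ C ∧ ∀ (R δ w C₀ : ℝ) (W : Pk m) (G : Z m → ℂ),
  1 ≤ R → 0 ≤ δ → R ^ δ ≤ w → 0 ≤ C₀ → TC G → (∀ z, ‖TF G z‖ ≤ C₀ * ww N R δ (R ^ δ) W z) →
  ∀ z, ‖TF (mu1 φ w G) z‖ ≤ C * C₀ * (R ^ δ / w) * ww N R δ w W z

/-- HRD: refined decoupling for the part of frequency about `1/w` of a sum of bumps -/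
def T_HRD : Prop := ∀ (N : ℕ) (δ C₀ : ℝ) (φ : ℝ → ℝ), 5 ≤ N → 0 < δ → δ ≤ 1 / 100 → 1 ≤ C₀ →
  ContDiff ℝ (⊤ : ℕ∞) φ → (∀ x, φ x ≠ 0 → 1 / 2 ≤ x ∧ x ≤ 2) → ∃ C : ℝ, 1 ≤ C ∧
  ∀ (R w h M : ℝ) (S : Finset (Pk 2)) (G : Pk 2 → Z 2 → ℂ) (X : Finset (Z 2)), 1 ≤ R →
  R ^ δ ≤ w → w ^ 2 ≤ R → 0 < h → 0 < M →
  (∀ W ∈ S, W.1 ∈ Ks 2 (sR R) ∧ ‖ctr (sR R) W.1‖ ≤ 3) → (∀ W ∈ S, TC (G W)) →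
  (∀ W ∈ S, ∀ z, ‖TF (G W) z‖ ≤ C₀ * ww N R δ (R ^ δ) W z) →
  (∀ W ∈ S, ∀ ζ, G W ζ ≠ 0 → ∃ ζ' : Z 2, ‖ζ'‖ ≤ 1 / 1000 ∧
    ζ = R ^ (-δ) • Ld (ctr (sR R) W.1) (sR R) ζ') →
  Sep X → (∀ z ∈ X, h ≤ ‖∑ W ∈ S, TF (mu1 φ w (G W)) z‖ ∧ Nd N R δ (w * R ^ δ) S z ≤ w * M) →
  (X.card : ℝ) * h ^ 4 ≤ C * R ^ (lo 2 * δ) * M * w ^ 4 * S.card * R ^ 2

/-- HL: the high-low alternative. If the number of planks at distance `w` is smaller than `w`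
times the multiplicity `M₁` then `M₁` satisfies a refined decoupling inequality -/
def T_HL : Prop := ∀ δ : ℝ, 0 < δ → δ ≤ 1 / 100 → ∃ N₀ : ℕ, ∀ N : ℕ, N₀ ≤ N → ∃ C : ℝ, 1 ≤ C ∧
  ∀ (R w M₁ M : ℝ) (P : Finset (Pk 2)) (X : Finset (Z 2)), 1 ≤ R → C ≤ R ^ δ →
  R ^ (lo 2 * δ) ≤ w → w ≤ R ^ (1 / 4 : ℝ) → R ^ (-(lo 2 * δ)) ≤ M₁ → 0 < M →
  (∀ W ∈ P, W.1 ∈ Ks 2 (sR R) ∧ ‖ctr (sR R) W.1‖ ≤ 3) → (P.card : ℝ) ≤ R ^ 10 → Sep X →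
  (∀ z ∈ X, M₁ ≤ Nd N R δ (R ^ δ) P z) →
  (∀ z ∈ X, ∀ w' : ℝ, R ^ δ ≤ w' → w' ≤ w → Nd N R δ w' P z ≤ R ^ (lo 2 * δ) * w' * M) →
  (∀ z ∈ X, C * R ^ (lo 2 * δ) * Nd N R δ w P z < M₁ * w) →
  (X.card : ℝ) * M₁ ^ 4 ≤ C * R ^ (3 * lo 2 * δ) * w ^ 4 * M * P.card * R ^ 2

/-! ### group DE: density of the balls of radius `w` in the planks `1 × w × w × w²` -/

/-- RDM: refined decoupling with multiplicities -/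
def T_RDM : Prop := ∀ (N Na : ℕ) (β : E 2 → ℂ) (Ψ : Z 2 → ℂ) (ψ : Z 2 → ℝ) (δ : ℝ), IsPU β →
  IsPsi Ψ ψ → 0 < δ → δ ≤ 1 / 100 → 5 ≤ N → 5 ≤ Na → ∃ C : ℝ, 1 ≤ C ∧
  ∀ (κ R a : ℝ) (G : Z 2 → ℂ) (S : Finset (Pk 2)), HG β Na κ R δ a G S → C ≤ R ^ δ →
  ∫⁻ z, ‖FS β ψ R δ G S z‖ₑ ^ 4 * (ENNReal.ofReal (Nd N R δ (R ^ δ) S z))⁻¹ ≤
    ENNReal.ofReal (C * R ^ (lo 2 * δ) * a ^ 4 * S.card * R ^ 2)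

/-- LCR: local constancy on the planks `1 × w × w × w²`, with a slowly varying weight -/
def T_LCR : Prop := ∀ (m N N₁ : ℕ) (D C₁ : ℝ), 1 ≤ D → 0 ≤ C₁ → ∃ C : ℝ, 1 ≤ C ∧
  ∀ (w B : ℝ) (η : E m) (G : Z m → ℂ) (M Ω : Z m → ℝ≥0∞), 1 ≤ w → 0 ≤ B → TC G →
  (∀ ζ, G ζ ≠ 0 → 1 / 4 ≤ ζ.1 ∧ ζ.1 ≤ 8 ∧ ‖ζ.1⁻¹ • ζ.2.1 - η‖ ≤ D / w ∧
    |ζ.2.2 - ‖ζ.2.1‖ ^ 2 / ζ.1| ≤ D / w ^ 2) →
  Measurable M → (∀ z, M z ≠ 0 ∧ M z ≠ ⊤) → Measurable Ω →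
  (∀ z z', M z ≤ ENNReal.ofReal (C₁ * (1 + ‖Lo η w⁻¹ (z - z')‖) ^ N₁) * M z') →
  (∀ z', ∫⁻ z, Ω z * ENNReal.ofReal (wt N (Lo η w⁻¹ (z - z'))) ≤
    ENNReal.ofReal (B * w ^ (m + 2))) →
  ∫⁻ z, ‖TF G z‖ₑ ^ 4 * (M z)⁻¹ * Ω z ≤
    ENNReal.ofReal (C * B) * ∫⁻ z, ‖TF G z‖ₑ ^ 4 * (M z)⁻¹

/-- DN1: a ball of radius `w` seen from a plank `1 × w × w × w²` -/
def T_DN1 : Prop := ∀ (m N N' : ℕ) (D : ℝ), 0 ≤ D → N + m + 5 ≤ N' → ∃ C : ℝ, 1 ≤ C ∧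
  ∀ (w : ℝ) (η : E m) (x z' : Z m), 1 ≤ w → ‖η‖ ≤ D →
  ∫⁻ z, ENNReal.ofReal (wt N' (w⁻¹ • (z - x)) * wt N' (Lo η w⁻¹ (z - z'))) ≤
    ENNReal.ofReal (C * w ^ (m + 1) * wt N (Tu η w (x - z')))

/-- DN2: a transversal plank meets few of the balls of radius `w` of a tube -/
def T_DN2 : Prop := ∀ (m N N' : ℕ) (D : ℝ), 0 ≤ D → 2 ≤ N → 3 * N + m + 7 ≤ N' →
  ∃ C : ℝ, 1 ≤ C ∧ ∀ (R δ w K : ℝ) (η : E m) (W : Pk m) (Y : Finset (Z m)) (z' : Z m), 1 ≤ R →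
  0 ≤ δ → 1 ≤ w → w ^ 2 ≤ Real.sqrt R → 1 ≤ K → ‖η‖ ≤ D → ‖ctr (sR R) W.1‖ ≤ D →
  1 / K ≤ ‖ctr (sR R) W.1 - η‖ → Sepw w Y →
  ∑ x ∈ Y, ww N R δ w W x * wt N' (Tu η w (x - z')) ≤ C * K ^ 2 * ww N R δ (w ^ 2) W z'

/-- DN3: density of the balls of radius `w` in the planks `1 × w × w × w²` -/
def T_DN3 : Prop := ∀ (N N' : ℕ) (D : ℝ), 0 ≤ D → 2 ≤ N → 5 * N + 16 ≤ N' →
  ∃ C : ℝ, 1 ≤ C ∧ ∀ (R δ w K d d' : ℝ) (η : E 2) (S : Finset (Pk 2)) (Y : Finset (Z 2)),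
  1 ≤ R → 0 ≤ δ → 1 ≤ w → w ^ 2 ≤ Real.sqrt R → 1 ≤ K → ‖η‖ ≤ D → 0 < d → 0 < d' →
  (∀ W ∈ S, ‖ctr (sR R) W.1‖ ≤ D ∧ 1 / K ≤ ‖ctr (sR R) W.1 - η‖) → Sepw w Y →
  (∀ x ∈ Y, d ≤ Nd N R δ w S x ∧ Nd N R δ (w ^ 2) S x ≤ d') →
  ∀ z' : Z 2, ∫⁻ z, ENNReal.ofReal (Om N' w Y z) * ENNReal.ofReal (wt N' (Lo η w⁻¹ (z - z'))) ≤
    ENNReal.ofReal (C * K ^ 2 * (d' / d) * w ^ 3)

/-- SUA: refined decoupling with density -/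
def T_SUA : Prop := ∀ (N N' Na : ℕ) (β : E 2 → ℂ) (Ψ : Z 2 → ℂ) (ψ : Z 2 → ℝ) (δ : ℝ), IsPU β →
  IsPsi Ψ ψ → 0 < δ → δ ≤ 1 / 100 → 5 ≤ N → 5 * N + 16 ≤ N' → 5 ≤ Na → ∃ C : ℝ, 1 ≤ C ∧
  ∀ (κ R K w a d d' : ℝ) (G : Z 2 → ℂ) (S S' : Finset (Pk 2)) (Y : Finset (Z 2)),
  HG β Na κ R δ a G S → C ≤ R ^ δ → 1 ≤ K → C * K ≤ w → w ^ 2 ≤ Real.sqrt R → 0 < d → 0 < d' →
  (∀ W ∈ S', ‖ctr (sR R) W.1‖ ≤ 3) →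
  (∀ W ∈ S, ∀ W' ∈ S', 1 / K ≤ ‖ctr (sR R) W.1 - ctr (sR R) W'.1‖) → Sepw w Y →
  (∀ x ∈ Y, d ≤ Nd N R δ w S' x ∧ Nd N R δ (w ^ 2) S' x ≤ d') →
  A4 N β ψ w R δ G S (fun z => ENNReal.ofReal (Om N' w Y z)) ≤
    ENNReal.ofReal (C * K ^ 2 * R ^ (lo 2 * δ) * (d' / (d * w)) * a ^ 4 * S.card * R ^ 2)

/-- LOW: local orthogonality of the caps of radius `1/w` in the balls of radius `w` -/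
def T_LOW : Prop := ∀ (N' Na : ℕ) (β : E 2 → ℂ) (Ψ : Z 2 → ℂ) (ψ : Z 2 → ℝ) (δ : ℝ), 5 ≤ N' →
  IsPU β → IsPsi Ψ ψ → 0 < δ → δ ≤ 1 / 100 → ∃ C : ℝ, 1 ≤ C ∧ ∀ (κ R w a : ℝ) (G : Z 2 → ℂ)
  (S : Finset (Pk 2)) (x : Z 2), HG β Na κ R δ a G S → C ≤ R ^ δ → 1 ≤ w → w ^ 2 ≤ R →
  ∫⁻ z, ‖FS β ψ R δ G S z‖ₑ ^ 2 * ENNReal.ofReal (wt N' (w⁻¹ • (z - x))) ≤
    ENNReal.ofReal C * L2 N' β ψ w R δ G S x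

/-- HLD: from second to fourth powers in the balls of radius `w` -/
def T_HLD : Prop := ∀ (N N' Na : ℕ) (β : E 2 → ℂ) (Ψ : Z 2 → ℂ) (ψ : Z 2 → ℝ) (δ : ℝ), 2 ≤ N →
  3 * N + 9 ≤ N' → IsPU β → IsPsi Ψ ψ → 0 < δ → δ ≤ 1 / 100 → ∃ C : ℝ, 1 ≤ C ∧
  ∀ (κ R w a : ℝ) (G : Z 2 → ℂ) (S : Finset (Pk 2)) (x : Z 2), HG β Na κ R δ a G S →
  C ≤ R ^ δ → R ^ δ ≤ w → w ^ 2 ≤ R →
  L2 N' β ψ w R δ G S x ≤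
    (A4 N β ψ w R δ G S fun z => ENNReal.ofReal (wt N' (w⁻¹ • (z - x)))) ^ (1 / 2 : ℝ) *
      ENNReal.ofReal (C * R ^ δ * w ^ 3 * Nd N R δ w S x) ^ (1 / 2 : ℝ)

/-- L2W: the energy estimate at thickness `w`. The family `S` carries the function, the
transversal family `S'` gives the density; `Y` is a maximal `w`-separated subset of `X` -/
def T_L2W : Prop := ∀ (N Na : ℕ) (β : E 2 → ℂ) (Ψ : Z 2 → ℂ) (ψ : Z 2 → ℝ) (δ : ℝ), IsPU β →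
  IsPsi Ψ ψ → 0 < δ → δ ≤ 1 / 100 → 5 ≤ N → 5 ≤ Na → ∃ C : ℝ, 1 ≤ C ∧
  ∀ (κ R K w a d d' D H : ℝ) (G : Z 2 → ℂ) (S S' : Finset (Pk 2)) (X Y : Finset (Z 2)),
  HG β Na κ R δ a G S → C ≤ R ^ δ → 1 ≤ K → C * K ≤ w → R ^ δ ≤ w → w ^ 2 ≤ Real.sqrt R →
  0 < d → 0 < d' → 0 < D → 0 < H → (∀ W ∈ S', ‖ctr (sR R) W.1‖ ≤ 3) →
  (∀ W ∈ S, ∀ W' ∈ S', 1 / K ≤ ‖ctr (sR R) W.1 - ctr (sR R) W'.1‖) → Sep X →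
  (∀ z ∈ X, H ≤ ‖FS β ψ R δ G S z‖) → Sepw w Y → (∀ z ∈ X, ∃ x ∈ Y, ‖z - x‖ ≤ w) →
  (∀ x ∈ Y, Nd N R δ w S x ≤ D ∧ d ≤ Nd N R δ w S' x ∧ Nd N R δ (w ^ 2) S' x ≤ d') →
  (X.card : ℝ) ^ 2 * H ^ 4 ≤ C * K ^ 2 * R ^ (2 * lo 2 * δ) * (d' / d) * D * w ^ 2 * Y.card *
    (a ^ 4 * S.card * R ^ 2)

open scoped Classical in
/-- LWW: Loomis-Whitney for four transversal families of plates of thickness `w` in a cube of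
side `R^{1/2}` -/
def T_LWW : Prop := ∀ δ : ℝ, 0 < δ → δ ≤ 1 / 100 → ∃ N₀ : ℕ, ∀ N : ℕ, N₀ ≤ N →
  ∃ C : ℝ, 1 ≤ C ∧ ∀ (R K w : ℝ) (q : Zi 2) (S : Fin 4 → Finset (Pk 2)) (d P : Fin 4 → ℝ)
  (Y : Finset (Z 2)), 1 ≤ R → C ≤ R ^ δ → 1 ≤ K → 1 ≤ w → w * R ^ δ ≤ Real.sqrt R →
  (∀ i, ((S i).card : ℝ) ≤ R ^ 10) → (∀ i, ∀ W ∈ S i, ‖ctr (sR R) W.1‖ ≤ 3) →
  (∀ W : Fin 4 → Pk 2, (∀ i, W i ∈ S i) → Ind K⁻¹ fun i => ctr (sR R) (W i).1) →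
  (∀ i, R⁻¹ ≤ d i) → Sepw w Y → (∀ x ∈ Y, cb (Real.sqrt R) x = q) →
  (∀ x ∈ Y, ∀ i, d i ≤ Nd N R δ w (S i) x) →
  (∀ i, (((S i).filter fun W => Inc R δ (tb R W) q).card : ℝ) ≤ P i) →
  (Y.card : ℝ) * ∏ i, d i ≤ C * K ^ 4 * R ^ (4 * δ) * ∏ i, P i

/-! ### group CO: consequences for the classes -/

open scoped Classical in
/-- DMU: the weighted numbers of planks are bounded by the numbers of tubes -/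
def T_DMU : Prop := ∀ δ : ℝ, 0 < δ → δ ≤ 1 / 100 → ∃ N₀ : ℕ, ∀ N : ℕ, N₀ ≤ N →
  ∃ C : ℝ, 1 ≤ C ∧ ∀ (R w M b : ℝ) (S : Finset (Pk 2)) (z : Z 2), 1 ≤ R → C ≤ R ^ δ → 1 ≤ w →
  w * R ^ δ ≤ Real.sqrt R → (S.card : ℝ) ≤ R ^ 10 → 1 ≤ M → 1 ≤ b →
  (∀ W ∈ S, ((S.filter (fun W' => tb R W' = tb R W)).card : ℝ) ≤ b) →
  (((S.image (tb R)).filter fun T => Inc R δ T (cb (Real.sqrt R) z)).card : ℝ) ≤ M →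
  (((S.filter fun W => Inc R δ (tb R W) (cb (Real.sqrt R) z)).card : ℝ) ≤ M * b) ∧
  Nd N R δ w S z ≤ C * w * M ∧ Nd N R δ w S z ≤ C * (M * b)

/-- RD4: refined decoupling at separated points, exponent four -/
def T_RD4 : Prop := ∀ (N Na : ℕ) (β : E 2 → ℂ) (Ψ : Z 2 → ℂ) (ψ : Z 2 → ℝ) (δ : ℝ), IsPU β →
  IsPsi Ψ ψ → 0 < δ → δ ≤ 1 / 100 → 5 ≤ N → 5 ≤ Na → ∃ C : ℝ, 1 ≤ C ∧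
  ∀ (κ R a H M₁ : ℝ) (G : Z 2 → ℂ) (S : Finset (Pk 2)) (X : Finset (Z 2)),
  HG β Na κ R δ a G S → C ≤ R ^ δ → 0 < H → 0 < M₁ → Sep X →
  (∀ z ∈ X, H ≤ ‖FS β ψ R δ G S z‖ ∧ Nd N R δ (R ^ δ) S z ≤ M₁) →
  (X.card : ℝ) * H ^ 4 ≤ C * R ^ (lo 2 * δ) * M₁ * a ^ 4 * S.card * R ^ 2

/-- MR4: four-linear restriction in a ball of radius `R` for wave packets -/
def T_MR4 : Prop := ∀ (ε δ : ℝ) (Na : ℕ) (β : E 2 → ℂ) (Ψ : Z 2 → ℂ) (ψ : Z 2 → ℝ), IsPU β →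
  IsPsi Ψ ψ → 0 < ε → 0 < δ → δ ≤ 1 / 100 → 5 ≤ Na → ∃ C E₁ : ℝ, 1 ≤ C ∧ 0 ≤ E₁ ∧
  ∀ (κ R K H a : ℝ) (c : Fin 4 → E 2) (G : Fin 4 → Z 2 → ℂ) (S : Fin 4 → Finset (Pk 2))
    (z₀ : Z 2) (X : Finset (Z 2)), (∀ i, HG β Na κ R δ a (G i) (S i)) → C ≤ R ^ δ → 1 ≤ K →
  C * K ≤ Real.sqrt R → 0 < H → (∀ i, ‖c i‖ ≤ 12) → Ind K⁻¹ c →
  (∀ i, ∀ W ∈ S i, ‖ctr (sR R) W.1 - c i‖ ≤ 1 / (400 * K)) →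
  Sep X → (∀ z ∈ X, ‖z - z₀‖ ≤ R) → (∀ z ∈ X, ∀ i, H ≤ ‖FS β ψ R δ (G i) (S i) z‖) →
  (X.card : ℝ) * H ^ (8 / 3 : ℝ) ≤ C * K ^ E₁ * R ^ (ε + 2 * lo 2 * δ) *
    ∏ i, (a ^ 2 * (S i).card * R) ^ (1 / 3 : ℝ)

end Pool.Agent.H84.LSB
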