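import Pool.Agent.H84.LSB.Targets
import Pool.Agent.H82.FP.Targets2

/-!
MP_ee74d2_an, dimension 3: further targets of the group HL (the high-low method for the planks).
-/

set_option autoImplicit false

namespace Pool.Agent.H84.LSB

open MeasureTheory Set
open Pool.Agent.H83.G
open Pool.Agent.H88.B2
open Pool.Agent.H22.G4 (nv Ind)
open scoped ENNReal NNReal RealInnerProductSpace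

/-- index of the cap of radius `w R^(-1/2)` which contains the cap `k` of radius `R^(-1/2)` -/
noncomputable def kb {m : ℕ} (w : ℝ) (k : Fin m → ℤ) : Fin m → ℤ := fun i => ⌊(k i : ℝ) / w⌋

/-- the planks of `S` in the cap `j` of radius `w R^(-1/2)` -/
noncomputable def Sb {m : ℕ} (w : ℝ) (S : Finset (Pk m)) (j : Fin m → ℤ) : Finset (Pk m) := by
  classical
  exact S.filter (fun W => kb w W.1 = j)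

open scoped Classical in
/-- KBL: the lattice of the caps of radius `w R^(-1/2)` -/
def T_KBL : Prop := ∀ (R w : ℝ) (k : Fin 2 → ℤ), 1 ≤ R → 1 ≤ w →
  ‖ctr (sR R) k - ctr (w * sR R) (kb w k)‖ ≤ w * sR R ∧
  (‖ctr (sR R) k‖ ≤ 3 → kb w k ∈ Ks 2 (w * sR R)) ∧
  sR (R / w ^ 2) = w * sR R ∧
  ∀ (I : Finset (Fin 2 → ℤ)) (j : Fin 2 → ℤ),
    ((I.filter fun k => kb w k = j).card : ℝ) ≤ 4 * w ^ 2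

open scoped Classical in
/-- MKB: bounds of the weighted numbers of planks -/
def T_MKB : Prop := ∀ N : ℕ, 5 ≤ N → ∃ C : ℝ, 1 ≤ C ∧ ∀ (R δ w : ℝ) (S : Finset (Pk 2))
  (z : Z 2), 1 ≤ R → 0 ≤ δ → 1 ≤ w →
  (∀ k : Fin 2 → ℤ, Nd N R δ (w * R ^ δ) (S.filter fun W => W.1 = k) z ≤ C * w) ∧
  (∀ j : Fin 2 → ℤ, Nd N R δ (w * R ^ δ) (Sb w S j) z ≤ C * w ^ 3) ∧
  ((∀ W ∈ S, W.1 ∈ Ks 2 (sR R)) → Nd N R δ (w * R ^ δ) S z ≤ C * w * R)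

/-- the hypotheses on the bumps `G W` -/
def HB (N : ℕ) (R δ C₀ : ℝ) (S : Finset (Pk 2)) (G : Pk 2 → Z 2 → ℂ) : Prop :=
  ∀ W ∈ S, W.1 ∈ Ks 2 (sR R) ∧ ‖ctr (sR R) W.1‖ ≤ 3 ∧ TC (G W) ∧
    (∀ z, ‖TF (G W) z‖ ≤ C₀ * ww N R δ (R ^ δ) W z) ∧
    ∀ ζ, G W ζ ≠ 0 → ∃ ζ' : Z 2, ‖ζ'‖ ≤ 1 / 1000 ∧
      ζ = R ^ (-δ) • Ld (ctr (sR R) W.1) (sR R) ζ'

/-- HRG: the pieces of the caps of radius `w R^(-1/2)`, dilated by `w` -/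
def T_HRG : Prop := ∃ D : ℝ, 1 ≤ D ∧ ∀ (N : ℕ) (R δ w C₀ : ℝ) (φ : ℝ → ℝ) (S : Finset (Pk 2))
  (G : Pk 2 → Z 2 → ℂ) (j : Fin 2 → ℤ), 1 ≤ R → 0 ≤ δ → 1 ≤ w → w ^ 2 ≤ R →
  ContDiff ℝ (⊤ : ℕ∞) φ → (∀ x, φ x ≠ 0 → 1 / 2 ≤ x ∧ x ≤ 2) → HB N R δ C₀ S G →
  ∃ G' : Z 2 → ℂ, TC G' ∧
    (∀ z, TF G' z = ∑ W ∈ Sb w S j, TF (mu1 φ w (G W)) (w • z)) ∧
    ∀ ζ, G' ζ ≠ 0 → 1 / 2 ≤ ζ.1 ∧ ζ.1 ≤ 2 ∧ ‖ζ‖ ≤ D ∧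
      ‖ζ.1⁻¹ • ζ.2.1 - ctr (w * sR R) j‖ ≤ D * (w * sR R) ∧
      |ζ.2.2 - ‖ζ.2.1‖ ^ 2 / ζ.1| ≤ D * (w * sR R) ^ 2

/-- HRI: refined decoupling at the scale `R/w²`, integral form -/
def T_HRI : Prop := ∀ (N : ℕ) (δ C₀ P : ℝ) (φ : ℝ → ℝ), 5 ≤ N → 0 < δ → δ ≤ 1 / 100 → 1 ≤ C₀ →
  2 ≤ P → P < 4 → ContDiff ℝ (⊤ : ℕ∞) φ → (∀ x, φ x ≠ 0 → 1 / 2 ≤ x ∧ x ≤ 2) →
  ∃ C : ℝ, 1 ≤ C ∧ ∀ (R w : ℝ) (S : Finset (Pk 2)) (G : Pk 2 → Z 2 → ℂ), 1 ≤ R →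
  R ^ δ ≤ w → w ^ 2 ≤ R → S.Nonempty → HB N R δ C₀ S G →
  ∫⁻ z : Z 2, ‖∑ W ∈ S, TF (mu1 φ w (G W)) (w • z)‖ₑ ^ P *
      ENNReal.ofReal (Nd N R δ (w * R ^ δ) S (w • z)) ^ (1 - P / 2) ≤
    ENNReal.ofReal (C * R ^ (20 * δ) * w ^ (P / 2 - 3) * S.card * R ^ 2)

/-- HRE: refined decoupling for the part of frequency about `1/w` of a sum of bumps, at separated
points, exponent four -/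
def T_HRE : Prop := ∀ (N : ℕ) (δ C₀ : ℝ) (φ : ℝ → ℝ), 5 ≤ N → 0 < δ → δ ≤ 1 / 100 → 1 ≤ C₀ →
  ContDiff ℝ (⊤ : ℕ∞) φ → (∀ x, φ x ≠ 0 → 1 / 2 ≤ x ∧ x ≤ 2) → ∃ C : ℝ, 1 ≤ C ∧
  ∀ (R w h M : ℝ) (S : Finset (Pk 2)) (G : Pk 2 → Z 2 → ℂ) (X : Finset (Z 2)), 1 ≤ R →
  R ^ δ ≤ w → w ^ 2 ≤ R → 0 < h → 0 < M → HB N R δ C₀ S G →
  Sep X → (∀ z ∈ X, h ≤ ‖∑ W ∈ S, TF (mu1 φ w (G W)) z‖ ∧ Nd N R δ (w * R ^ δ) S z ≤ w * M) →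
  (X.card : ℝ) * h ^ 4 ≤ C * R ^ (lo 2 * δ) * M * w ^ 4 * S.card * R ^ 2

/-- MRP: four-linear restriction in a ball of radius `R` for wave packets -/
def T_MRP : Prop := ∀ (ε δ : ℝ) (Na : ℕ) (β : E 2 → ℂ) (Ψ : Z 2 → ℂ) (ψ : Z 2 → ℝ), IsPU β →
  IsPsi Ψ ψ → 0 < ε → 0 < δ → δ ≤ 1 / 100 → 5 ≤ Na → ∃ C E₁ : ℝ, 1 ≤ C ∧ 0 ≤ E₁ ∧
  ∀ (κ R K H : ℝ) (a : Fin 4 → ℝ) (c : Fin 4 → E 2) (G : Fin 4 → Z 2 → ℂ)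
    (S : Fin 4 → Finset (Pk 2)) (z₀ : Z 2) (X : Finset (Z 2)),
  (∀ i, HG β Na κ R δ (a i) (G i) (S i)) → C ≤ R ^ δ → 1 ≤ K → C * K ≤ Real.sqrt R → 0 < H →
  (∀ i, ‖c i‖ ≤ 7 / 5) → Ind K⁻¹ c →
  (∀ i, ∀ W ∈ S i, ‖ctr (sR R) W.1 - c i‖ ≤ 1 / (400 * K)) →
  Sep X → (∀ z ∈ X, ‖z - z₀‖ ≤ R) → (∀ z ∈ X, ∀ i, H ≤ ‖FS β ψ R δ (G i) (S i) z‖) →
  (X.card : ℝ) * H ^ (8 / 3 : ℝ) ≤ C * K ^ E₁ * R ^ (ε + 2 * lo 2 * δ) *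
    ∏ i, (a i ^ 2 * (S i).card * R) ^ (1 / 3 : ℝ)

end Pool.Agent.H84.LSB
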